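import Pool.Agent.Helper50.StarFinite2

set_option autoImplicit false
set_option linter.unusedSectionVars false

open Set Metric Filter Topology

namespace Pool.Agent.Helper50.StarFinite

universe u v

variable {E : Type u} [NormedAddCommGroup E] [NormedSpace ℝ E]
variable {ι : Type v} {c : ι → E} {r : ι → ℝ}

/-- Selection of a ball and of an open set of directions on its sphere which are accumulated by
points outside of all balls through `x`. -/
lemma select [CompleteSpace E]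
    (hr : ∀ i, 0 < r i)
    (hcov : (⋃ i, closedBall (c i) (r i)) = univ)
    (hstar : ∀ i, {j : ι | (closedBall (c i) (r i) ∩ closedBall (c j) (r j)).Nonempty}.Finite)
    {x : E} {ε : ℝ} (hε : 0 < ε) (hs : Sing c r x)
    (h2 : ∀ i, (closedBall (c i) (r i) ∩ ball x ε).Nonempty → x ∈ closedBall (c i) (r i) ∨
        ∀ j, x ∈ closedBall (c j) (r j) →
          Disjoint (closedBall (c i) (r i)) (closedBall (c j) (r j))) :
    ∃ l : ι, x ∈ closedBall (c l) (r l) ∧ ∃ b : E, ‖b‖ = 1 ∧ ∃ δ : ℝ, 0 < δ ∧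
      ∀ v : E, ‖v‖ = 1 → ‖v - b‖ < δ → c l + r l • v ∈ ball x (ε / 16) ∧
        ∀ t : ℝ, 0 < t → ∃ p : E, ‖p - (c l + r l • v)‖ < t ∧
          ∀ j, x ∈ closedBall (c j) (r j) → p ∉ closedBall (c j) (r j) := by
  classical
  set J := {j : ι | x ∈ closedBall (c j) (r j)} with hJ
  have hJf : J.Finite := ptFinite hcov hstar x
  obtain ⟨j1, hj1⟩ : J.Nonempty := by
    have hp : x ∈ ⋃ i, closedBall (c i) (r i) := by rw [hcov]; trivial
    obtain ⟨i, hi⟩ := mem_iUnion.1 hp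
    exact ⟨i, hi⟩
  -- a point outside C near x
  obtain ⟨k, hk, hkJ⟩ : ∃ k ∈ {j : ι | (closedBall (c j) (r j) ∩ ball x (ε / 64)).Nonempty},
      k ∉ J := (hs (ε / 64) (by positivity)).exists_notMem_finite hJf
  obtain ⟨u0, hu0k, hu0x⟩ := hk
  have hu0 : ∀ j ∈ J, u0 ∉ closedBall (c j) (r j) := by
    intro j hj hu
    rcases h2 k ⟨u0, hu0k, ball_subset_ball (by linarith) hu0x⟩ with h | h
    · exact hkJ h
    · exact Set.disjoint_left.1 (h j hj) hu0k hu
  have hCcl : IsClosed (⋃ j ∈ J, closedBall (c j) (r j)) :=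
    hJf.isClosed_biUnion (fun j _ => isClosed_closedBall)
  set W : Set E := ball x (ε / 64) ∩ (⋃ j ∈ J, closedBall (c j) (r j))ᶜ with hW
  have hWo : IsOpen W := isOpen_ball.inter hCcl.isOpen_compl
  have hWn : W.Nonempty := ⟨u0, hu0x, by
    simp only [mem_compl_iff, mem_iUnion, not_exists]
    exact fun j hj => hu0 j hj⟩
  set M : ι → Set E := fun l => {u | ∀ j ∈ J, ‖u - c l‖ - r l ≤ ‖u - c j‖ - r j} with hM
  have hMc : ∀ l ∈ J, IsClosed (M l) := by
    intro l _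
    have : M l = ⋂ j ∈ J, {u | ‖u - c l‖ - r l ≤ ‖u - c j‖ - r j} := by
      ext u; simp [hM]
    rw [this]
    refine isClosed_biInter (fun j _ => isClosed_le ?_ ?_)
    · fun_prop
    · fun_prop
  have hMU : (⋃ l ∈ J, M l) = univ := by
    ext u
    simp only [mem_iUnion, mem_univ, iff_true, exists_prop]
    obtain ⟨l, hl, hmin⟩ := hJf.exists_minimalFor (fun j => ‖u - c j‖ - r j) J ⟨j1, hj1⟩
    refine ⟨l, hl, ?_⟩
    intro j hj
    rcases le_total (‖u - c l‖ - r l) (‖u - c j‖ - r j) with h | h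
    · exact h
    · exact hmin hj h
  have hdense := dense_biUnion_interior_of_closed hMc hJf.countable hMU
  obtain ⟨u, huW, huM⟩ := hdense.inter_open_nonempty W hWo hWn
  simp only [mem_iUnion, exists_prop] at huM
  obtain ⟨l, hlJ, hul⟩ := huM
  rw [mem_interior_iff_mem_nhds, Metric.mem_nhds_iff] at hul
  obtain ⟨δ1, hδ1, hδsub⟩ := hul
  have hul' : u ∉ closedBall (c l) (r l) := by
    have := huW.2
    simp only [mem_compl_iff, mem_iUnion, not_exists] at this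
    exact this l hlJ
  rw [mem_closedBall, dist_eq_norm, not_le] at hul'
  set R := ‖u - c l‖ with hR
  set d := R - r l with hd
  have hd0 : 0 < d := by linarith
  have hR0 : 0 < R := by linarith [hr l]
  have hux : ‖u - x‖ < ε / 64 := by
    have := huW.1
    rwa [mem_ball, dist_eq_norm] at this
  have hxl : ‖x - c l‖ ≤ r l := by
    have : x ∈ closedBall (c l) (r l) := hlJ
    rwa [mem_closedBall, dist_eq_norm] at this
  have hdε : d < ε / 64 := by
    have : R ≤ ‖u - x‖ + ‖x - c l‖ := by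
      rw [hR]
      calc ‖u - c l‖ = ‖(u - x) + (x - c l)‖ := by congr 1; abel
        _ ≤ _ := norm_add_le _ _
    linarith
  refine ⟨l, hlJ, (1 / R) • (u - c l), ?_, min (δ1 / R) (ε / 64 / R),
    lt_min (by positivity) (by positivity), ?_⟩
  · rw [norm_smul, Real.norm_eq_abs, abs_of_pos (by positivity), ← hR]
    field_simp
  intro v hv hvb
  have hvR : ‖(c l + R • v) - u‖ = R * ‖v - (1 / R) • (u - c l)‖ := by
    have : (c l + R • v) - u = R • (v - (1 / R) • (u - c l)) := by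
      rw [smul_sub, smul_smul, mul_one_div_cancel hR0.ne', one_smul]
      abel
    rw [this, norm_smul, Real.norm_eq_abs, abs_of_pos hR0]
  have hv1 : ‖(c l + R • v) - u‖ < δ1 := by
    rw [hvR]
    have := hvb.trans_le (min_le_left _ _)
    rw [lt_div_iff₀ hR0] at this
    linarith
  have hv2 : ‖(c l + R • v) - u‖ < ε / 64 := by
    rw [hvR]
    have := hvb.trans_le (min_le_right _ _)
    rw [lt_div_iff₀ hR0] at this
    linarith
  have hvM : c l + R • v ∈ M l := hδsub (by rw [mem_ball, dist_eq_norm]; exact hv1)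
  have hnRv : ‖(c l + R • v) - c l‖ = R := by
    rw [add_sub_cancel_left, norm_smul, hv, Real.norm_eq_abs, abs_of_pos hR0, mul_one]
  constructor
  · rw [mem_ball, dist_eq_norm]
    have h3 : c l + r l • v - x = ((c l + R • v) - u) + (u - x) + (-d) • v := by
      rw [hd]; module
    calc ‖c l + r l • v - x‖ = ‖((c l + R • v) - u) + (u - x) + (-d) • v‖ := by rw [h3]
      _ ≤ ‖(c l + R • v) - u‖ + ‖u - x‖ + ‖(-d) • v‖ := norm_add₃_le
      _ < ε / 16 := by
        rw [norm_smul, hv, norm_neg, Real.norm_eq_abs, abs_of_pos hd0]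
        linarith
  · intro t ht
    set s := min (t / 2) d with hs'
    have hs0 : 0 < s := lt_min (by positivity) hd0
    have hst : s ≤ t / 2 := min_le_left _ _
    have hsd : s ≤ d := min_le_right _ _
    refine ⟨c l + (r l + s) • v, ?_, ?_⟩
    · have : c l + (r l + s) • v - (c l + r l • v) = s • v := by module
      rw [this, norm_smul, hv, Real.norm_eq_abs, abs_of_pos hs0]
      linarith
    · intro j hj hcon
      rw [mem_closedBall, dist_eq_norm] at hcon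
      have h4 := hvM j hj
      rw [hnRv] at h4
      have h5 : ‖(c l + R • v) - c j‖ ≤ ‖c l + (r l + s) • v - c j‖ + (d - s) := by
        have h6 : (c l + R • v) - c j = (c l + (r l + s) • v - c j) + (d - s) • v := by
          rw [hd]; module
        calc ‖(c l + R • v) - c j‖ ≤ ‖c l + (r l + s) • v - c j‖ + ‖(d - s) • v‖ := by
              rw [h6]; exact norm_add_le _ _
          _ = ‖c l + (r l + s) • v - c j‖ + (d - s) := by
              rw [norm_smul, hv, Real.norm_eq_abs, abs_of_nonneg (by linarith), mul_one]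
      linarith

/-- Two-sided roughness with constant `2` on a nonempty open set. -/
theorem rough [CompleteSpace E] [TopologicalSpace.SeparableSpace E]
    (hE : ¬ FiniteDimensional ℝ E) (hr : ∀ i, 0 < r i)
    (hcov : (⋃ i, closedBall (c i) (r i)) = univ)
    (hstar : ∀ i, {j : ι | (closedBall (c i) (r i) ∩ closedBall (c j) (r j)).Nonempty}.Finite) :
    ∃ G : Set E, IsOpen G ∧ G.Nonempty ∧ ∀ v ∈ G, v ≠ 0 ∧ ∀ η : ℝ, 0 < η →
      ∃ w : E, ‖w‖ ≤ ‖v‖ ∧ (2 - η) * ‖v‖ ≤ ‖v + w‖ ∧ (2 - η) * ‖v‖ ≤ ‖v - w‖ := by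
  obtain ⟨x, ε, hε, hs, h1, h2⟩ := exists_good hE hr hcov hstar
  obtain ⟨l, hl, b, hb, δ, hδ, hsel⟩ := select hr hcov hstar hε hs h2
  refine ⟨{v : E | v ≠ 0 ∧ ‖(1 / ‖v‖) • v - b‖ < δ}, ?_, ⟨b, ?_, ?_⟩, ?_⟩
  · rw [isOpen_iff_mem_nhds]
    rintro v ⟨hv0, hv⟩
    have hc : ContinuousAt (fun v : E => ‖(1 / ‖v‖) • v - b‖) v := by
      have : ‖v‖ ≠ 0 := norm_ne_zero_iff.2 hv0
      fun_prop (disch := assumption)
    have e1 : ∀ᶠ y in 𝓝 v, ‖(1 / ‖y‖) • y - b‖ < δ := hc.eventually (gt_mem_nhds hv)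
    have e2 : ∀ᶠ y in 𝓝 v, y ≠ 0 := isOpen_ne.mem_nhds hv0
    filter_upwards [e1, e2] with y hy1 hy2
    exact ⟨hy2, hy1⟩
  · intro h0
    rw [h0, norm_zero] at hb
    exact zero_ne_one hb
  · rw [hb]
    simpa using hδ
  · rintro v ⟨hv0, hv⟩
    refine ⟨hv0, ?_⟩
    intro η hη
    have hn : 0 < ‖v‖ := norm_pos_iff.2 hv0
    have hu : ‖(1 / ‖v‖) • v‖ = 1 := by
      rw [norm_smul, Real.norm_eq_abs, abs_of_pos (by positivity)]
      field_simp
    obtain ⟨hz, hacc⟩ := hsel _ hu hv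
    obtain ⟨w, hw, hw1, hw2⟩ := triple hE hr hcov hstar hε h1 h2 hl hu hz hacc hη
    have hvv : v = ‖v‖ • ((1 / ‖v‖) • v) := by
      rw [smul_smul, mul_one_div_cancel hn.ne', one_smul]
    refine ⟨‖v‖ • w, ?_, ?_, ?_⟩
    · rw [norm_smul, norm_norm]
      nlinarith
    · have : v + ‖v‖ • w = ‖v‖ • ((1 / ‖v‖) • v + w) := by
        rw [smul_add, ← hvv]
      rw [this, norm_smul, norm_norm]
      nlinarith
    · have : v - ‖v‖ • w = ‖v‖ • ((1 / ‖v‖) • v - w) := by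
        rw [smul_sub, ← hvv]
      rw [this, norm_smul, norm_norm]
      nlinarith

/-- The scaled form of roughness. -/
lemma rough_scaled {v : E} (h : ∀ η : ℝ, 0 < η →
      ∃ w : E, ‖w‖ ≤ ‖v‖ ∧ (2 - η) * ‖v‖ ≤ ‖v + w‖ ∧ (2 - η) * ‖v‖ ≤ ‖v - w‖)
    {η s : ℝ} (hη : 0 < η) (hs : 0 < s) (hs1 : s ≤ 1) :
    ∃ w : E, ‖w‖ ≤ ‖v‖ ∧ (1 + s - s * η) * ‖v‖ ≤ ‖v + s • w‖ ∧
      (1 + s - s * η) * ‖v‖ ≤ ‖v - s • w‖ := by
  obtain ⟨w, hw, h1, h2⟩ := h (s * η) (by positivity)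
  refine ⟨w, hw, ?_, ?_⟩
  · have h3 : ‖v + w‖ ≤ ‖v + s • w‖ + (1 - s) * ‖v‖ := by
      calc ‖v + w‖ = ‖(v + s • w) + (1 - s) • w‖ := by congr 1; module
        _ ≤ ‖v + s • w‖ + ‖(1 - s) • w‖ := norm_add_le _ _
        _ ≤ ‖v + s • w‖ + (1 - s) * ‖v‖ := by
            rw [norm_smul, Real.norm_eq_abs, abs_of_nonneg (by linarith)]
            have := mul_le_mul_of_nonneg_left hw (by linarith : 0 ≤ 1 - s)
            linarith
    nlinarith
  · have h3 : ‖v - w‖ ≤ ‖v - s • w‖ + (1 - s) * ‖v‖ := by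
      calc ‖v - w‖ = ‖(v - s • w) + (-(1 - s)) • w‖ := by congr 1; module
        _ ≤ ‖v - s • w‖ + ‖(-(1 - s)) • w‖ := norm_add_le _ _
        _ ≤ ‖v - s • w‖ + (1 - s) * ‖v‖ := by
            rw [norm_smul, norm_neg, Real.norm_eq_abs, abs_of_nonneg (by linarith)]
            have := mul_le_mul_of_nonneg_left hw (by linarith : 0 ≤ 1 - s)
            linarith
    nlinarith

/-- A rough norm is not Fréchet differentiable. -/
lemma not_differentiable {v : E} (hv : v ≠ 0) (h : ∀ η : ℝ, 0 < η →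
      ∃ w : E, ‖w‖ ≤ ‖v‖ ∧ (2 - η) * ‖v‖ ≤ ‖v + w‖ ∧ (2 - η) * ‖v‖ ≤ ‖v - w‖) :
    ¬ DifferentiableAt ℝ (fun x : E => ‖x‖) v := by
  intro hd
  have hn : 0 < ‖v‖ := norm_pos_iff.2 hv
  obtain ⟨f, hf⟩ := hd
  have hlo := hf.isLittleO
  rw [Asymptotics.isLittleO_iff] at hlo
  have h1 := hlo (by norm_num : (0 : ℝ) < 1 / 4)
  rw [Metric.eventually_nhds_iff] at h1
  obtain ⟨δ, hδ, h1⟩ := h1
  set s := min 1 (δ / (2 * ‖v‖)) with hs
  have hs0 : 0 < s := lt_min one_pos (by positivity)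
  have hs1 : s ≤ 1 := min_le_left _ _
  obtain ⟨w, hw, hw1, hw2⟩ := rough_scaled h (by norm_num : (0 : ℝ) < 1 / 4) hs0 hs1
  have hsw : ‖s • w‖ ≤ s * ‖v‖ := by
    rw [norm_smul, Real.norm_eq_abs, abs_of_pos hs0]
    exact mul_le_mul_of_nonneg_left hw hs0.le
  have hsδ : s * ‖v‖ < δ := by
    have : s ≤ δ / (2 * ‖v‖) := min_le_right _ _
    calc s * ‖v‖ ≤ δ / (2 * ‖v‖) * ‖v‖ := mul_le_mul_of_nonneg_right this hn.le
      _ = δ / 2 := by field_simp
      _ < δ := by linarith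
  have h2 := h1 (y := v + s • w) (by rw [dist_eq_norm, add_sub_cancel_left]; linarith)
  have h3 := h1 (y := v - s • w) (by
    rw [dist_eq_norm, show v - s • w - v = -(s • w) by abel, norm_neg]; linarith)
  rw [add_sub_cancel_left] at h2
  rw [show v - s • w - v = -(s • w) by abel, norm_neg, map_neg] at h3
  rw [Real.norm_eq_abs] at h2 h3
  have h4 := (abs_le.1 h2).2
  have h5 := (abs_le.1 h3).2
  have h6 : 0 < s * ‖v‖ := by positivity
  nlinarith

/-- Roughness on an open set makes the dual nonseparable. -/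
lemma not_separable_dual [CompleteSpace E] {G : Set E} (hG : IsOpen G) (hGn : G.Nonempty)
    (h : ∀ v ∈ G, v ≠ 0 ∧ ∀ η : ℝ, 0 < η →
      ∃ w : E, ‖w‖ ≤ ‖v‖ ∧ (2 - η) * ‖v‖ ≤ ‖v + w‖ ∧ (2 - η) * ‖v‖ ≤ ‖v - w‖) :
    ¬ TopologicalSpace.SeparableSpace (E →L[ℝ] ℝ) := by
  intro hsep
  obtain ⟨D, hDc, hDd⟩ := TopologicalSpace.exists_countable_dense (E →L[ℝ] ℝ)
  set A : (E →L[ℝ] ℝ) → Set E := fun g =>
    {v | ∀ u : E, ‖v‖ + g (u - v) - (1 / 2) * ‖u - v‖ ≤ ‖u‖} with hA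
  have hAc : ∀ g ∈ D, IsClosed (A g) := by
    intro g _
    have : A g = ⋂ u : E, {v | ‖v‖ + g (u - v) - (1 / 2) * ‖u - v‖ ≤ ‖u‖} := by
      ext v; simp [hA]
    rw [this]
    exact isClosed_iInter (fun u => isClosed_le (by fun_prop) (by fun_prop))
  have hAU : (⋃ g ∈ D, A g) = univ := by
    ext v
    simp only [mem_iUnion, mem_univ, iff_true, exists_prop]
    obtain ⟨f, hf1, hf2⟩ := exists_dual_vector'' ℝ v
    obtain ⟨g, hg1, hg2⟩ := hDd.exists_dist_lt f (by norm_num : (0 : ℝ) < 1 / 2)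
    refine ⟨g, hg1, ?_⟩
    intro u
    have h1 : f u ≤ ‖u‖ := by
      calc f u ≤ ‖f u‖ := le_abs_self _
        _ ≤ ‖f‖ * ‖u‖ := f.le_opNorm u
        _ ≤ 1 * ‖u‖ := by gcongr
        _ = ‖u‖ := one_mul _
    have h2 : g (u - v) - f (u - v) ≤ 1 / 2 * ‖u - v‖ := by
      have h3 : ‖(f - g) (u - v)‖ ≤ 1 / 2 * ‖u - v‖ :=
        (f - g).le_of_opNorm_le (by rw [← dist_eq_norm]; exact hg2.le) _
      rw [_root_.sub_apply, Real.norm_eq_abs] at h3
      linarith [(abs_le.1 h3).1]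
    have h3 : f (u - v) = f u - ‖v‖ := by
      rw [map_sub, hf2]; simp
    linarith
  obtain ⟨v, hvG, hvA⟩ := (dense_biUnion_interior_of_closed hAc hDc hAU).inter_open_nonempty
    G hG hGn
  simp only [mem_iUnion, exists_prop] at hvA
  obtain ⟨g, hgD, hvg⟩ := hvA
  rw [mem_interior_iff_mem_nhds, Metric.mem_nhds_iff] at hvg
  obtain ⟨δ, hδ, hsub⟩ := hvg
  obtain ⟨hv0, hv⟩ := h v hvG
  have hn : 0 < ‖v‖ := norm_pos_iff.2 hv0
  set s := min 1 (δ / (2 * ‖v‖)) with hs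
  have hs0 : 0 < s := lt_min one_pos (by positivity)
  have hs1 : s ≤ 1 := min_le_left _ _
  obtain ⟨w, hw, hw1, hw2⟩ := rough_scaled hv (by norm_num : (0 : ℝ) < 1 / 4) hs0 hs1
  have hsw : ‖s • w‖ ≤ s * ‖v‖ := by
    rw [norm_smul, Real.norm_eq_abs, abs_of_pos hs0]
    exact mul_le_mul_of_nonneg_left hw hs0.le
  have hsδ : s * ‖v‖ < δ := by
    have : s ≤ δ / (2 * ‖v‖) := min_le_right _ _
    calc s * ‖v‖ ≤ δ / (2 * ‖v‖) * ‖v‖ := mul_le_mul_of_nonneg_right this hn.le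
      _ = δ / 2 := by field_simp
      _ < δ := by linarith
  have hm1 : v + s • w ∈ A g := hsub (by
    rw [mem_ball, dist_eq_norm, add_sub_cancel_left]; linarith)
  have hm2 : v - s • w ∈ A g := hsub (by
    rw [mem_ball, dist_eq_norm, show v - s • w - v = -(s • w) by abel, norm_neg]; linarith)
  have h4 := hm1 v
  have h5 := hm2 v
  rw [show v - (v + s • w) = -(s • w) by abel, norm_neg, map_neg] at h4
  rw [show v - (v - s • w) = s • w by abel] at h5
  have h6 : 0 < s * ‖v‖ := by positivity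
  nlinarith

end Pool.Agent.Helper50.StarFinite
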