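import Pool.Agent.Helper12.Defs

/-!
Packet 5 of MP_ecbc8a_al: fewer than continuum Sylow 2-subgroups gives a finite good 2-subgroup.
-/

set_option autoImplicit false

namespace Pool.Agent.Helper12.TwoLen

variable {H : Type} [Group H]

theorem Is2.isPGroup {P : Subgroup H} (h : Is2 P) : IsPGroup 2 P := by
  rintro ⟨x, hx⟩
  obtain ⟨k, hk⟩ := h x hx
  exact ⟨k, Subtype.ext hk⟩

theorem Is2.of_isPGroup {P : Subgroup H} (h : IsPGroup 2 P) : Is2 P := by
  intro x hx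
  obtain ⟨k, hk⟩ := h ⟨x, hx⟩
  exact ⟨k, congrArg Subtype.val hk⟩

theorem Is2.mono {P Q : Subgroup H} (h : Is2 Q) (hle : P ≤ Q) : Is2 P := fun x hx => h x (hle hx)

theorem exists_fg_of_mem_sup {P Q : Subgroup H} {x : H} (hx : x ∈ P ⊔ Q) :
    ∃ P₀ Q₀ : Subgroup H, P₀ ≤ P ∧ P₀.FG ∧ Q₀ ≤ Q ∧ Q₀.FG ∧ x ∈ P₀ ⊔ Q₀ := by
  let T : Subgroup H :=
    { carrier := {x | ∃ P₀ Q₀ : Subgroup H, P₀ ≤ P ∧ P₀.FG ∧ Q₀ ≤ Q ∧ Q₀.FG ∧ x ∈ P₀ ⊔ Q₀}
      one_mem' := ⟨⊥, ⊥, bot_le, Subgroup.FG.bot, bot_le, Subgroup.FG.bot, Subgroup.one_mem _⟩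
      mul_mem' := by
        rintro a b ⟨P₁, Q₁, h1, h2, h3, h4, h5⟩ ⟨P₂, Q₂, k1, k2, k3, k4, k5⟩
        refine ⟨P₁ ⊔ P₂, Q₁ ⊔ Q₂, sup_le h1 k1, h2.sup k2, sup_le h3 k3, h4.sup k4, ?_⟩
        have e1 : P₁ ⊔ Q₁ ≤ P₁ ⊔ P₂ ⊔ (Q₁ ⊔ Q₂) := sup_le_sup le_sup_left le_sup_left
        have e2 : P₂ ⊔ Q₂ ≤ P₁ ⊔ P₂ ⊔ (Q₁ ⊔ Q₂) := sup_le_sup le_sup_right le_sup_right
        exact Subgroup.mul_mem _ (e1 h5) (e2 k5)
      inv_mem' := by
        rintro a ⟨P₁, Q₁, h1, h2, h3, h4, h5⟩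
        exact ⟨P₁, Q₁, h1, h2, h3, h4, Subgroup.inv_mem _ h5⟩ }
  have hz : ∀ y : H, (Subgroup.zpowers y).FG := fun y => by
    classical
    exact ⟨{y}, by rw [Finset.coe_singleton, Subgroup.zpowers_eq_closure]⟩
  have hle : P ⊔ Q ≤ T := by
    apply sup_le
    · intro y hy
      refine ⟨Subgroup.zpowers y, ⊥, by rwa [Subgroup.zpowers_le], hz y, bot_le, Subgroup.FG.bot, ?_⟩
      exact Subgroup.mem_sup_left (Subgroup.mem_zpowers y)
    · intro y hy
      refine ⟨⊥, Subgroup.zpowers y, bot_le, Subgroup.FG.bot, by rwa [Subgroup.zpowers_le], hz y, ?_⟩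
      exact Subgroup.mem_sup_right (Subgroup.mem_zpowers y)
  exact hle hx

theorem existsGood : ExistsGood := by
  intro H _ hlf hcard
  by_contra hcon
  push Not at hcon
  -- finite version
  have hfin : ∀ A : Subgroup H, Finite A ∧ Is2 A → ∃ B C : {A : Subgroup H // Finite A ∧ Is2 A},
      A ≤ B.1 ∧ A ≤ C.1 ∧ ¬ Is2 (B.1 ⊔ C.1) := by
    rintro A ⟨hA, hA2⟩
    obtain ⟨P, Q, hP, hQ, hAP, hAQ, hPQ⟩ := hcon A hA hA2
    rw [Is2] at hPQ
    push Not at hPQ
    obtain ⟨x, hx, hxE⟩ := hPQ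
    obtain ⟨P₀, Q₀, hP₀, hP₀fg, hQ₀, hQ₀fg, hx₀⟩ := exists_fg_of_mem_sup hx
    have hAfg : A.FG := by
      classical
      have := Fintype.ofFinite A
      exact ⟨Finset.univ.image (Subtype.val : A → H), by
        rw [Finset.coe_image, Finset.coe_univ, Set.image_univ, Subtype.range_coe_subtype]
        exact Subgroup.closure_eq A⟩
    refine ⟨⟨P₀ ⊔ A, hlf _ (hP₀fg.sup hAfg), hP.mono (sup_le hP₀ hAP)⟩,
      ⟨Q₀ ⊔ A, hlf _ (hQ₀fg.sup hAfg), hQ.mono (sup_le hQ₀ hAQ)⟩, le_sup_right, le_sup_right, ?_⟩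
    intro h
    have e1 : P₀ ⊔ Q₀ ≤ P₀ ⊔ A ⊔ (Q₀ ⊔ A) := sup_le_sup le_sup_left le_sup_left
    exact hxE (h x (e1 hx₀))
  have hfin' : ∀ A : {A : Subgroup H // Finite A ∧ Is2 A}, ∃ B C : {A : Subgroup H // Finite A ∧ Is2 A},
      A.1 ≤ B.1 ∧ A.1 ≤ C.1 ∧ ¬ Is2 (B.1 ⊔ C.1) := fun A => hfin A.1 A.2
  choose B C hB hC hBC using hfin'
  have hbot : Finite (⊥ : Subgroup H) ∧ Is2 (⊥ : Subgroup H) := by
    refine ⟨inferInstance, ?_⟩
    intro x hx
    rw [Subgroup.mem_bot] at hx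
    exact ⟨0, by rw [hx, one_pow]⟩
  let nd : (ℕ → Bool) → ℕ → {A : Subgroup H // Finite A ∧ Is2 A} := fun f n =>
    Nat.rec ⟨⊥, hbot⟩ (fun n A => if f n then C A else B A) n
  have nd_succ : ∀ f n, nd f (n + 1) = if f n then C (nd f n) else B (nd f n) := fun f n => rfl
  have nd_congr : ∀ (f g : ℕ → Bool) (n : ℕ), (∀ i < n, f i = g i) → nd f n = nd g n := by
    intro f g n
    induction n with
    | zero => intro _; rfl
    | succ n ih =>
      intro h
      rw [nd_succ, nd_succ, ih (fun i hi => h i (by omega)), h n (by omega)]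
  have nd_le : ∀ f n, (nd f n).1 ≤ (nd f (n + 1)).1 := by
    intro f n
    rw [nd_succ]
    split_ifs
    · exact hC _
    · exact hB _
  have hmono : ∀ f, Monotone (fun n => (nd f n).1) := fun f => monotone_nat_of_le_succ (nd_le f)
  have hsup : ∀ f, Is2 (⨆ n, (nd f n).1) := by
    intro f x hx
    rw [Subgroup.mem_iSup_of_directed (hmono f).directed_le] at hx
    obtain ⟨n, hn⟩ := hx
    exact (nd f n).2.2 x hn
  have hsyl : ∀ f, ∃ S : Sylow 2 H, (⨆ n, (nd f n).1) ≤ S := fun f =>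
    (hsup f).isPGroup.exists_le_sylow
  choose S hS using hsyl
  have hinj : Function.Injective S := by
    intro f g hfg
    by_contra hne
    have hex : ∃ n, f n ≠ g n := by
      by_contra h
      push Not at h
      exact hne (funext h)
    have hfind := Nat.find_spec hex
    set n := Nat.find hex with hn
    have hlt : ∀ i < n, f i = g i := by
      intro i hi
      have := Nat.find_min hex hi
      push Not at this
      exact this
    have hcongr := nd_congr f g n hlt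
    have hS2 : Is2 (S f : Subgroup H) := Is2.of_isPGroup (S f).isPGroup'
    have h1 : (nd f (n + 1)).1 ≤ (S f : Subgroup H) :=
      (le_iSup (fun n => (nd f n).1) (n + 1)).trans (hS f)
    have h2 : (nd g (n + 1)).1 ≤ (S f : Subgroup H) := by
      rw [hfg]
      exact (le_iSup (fun n => (nd g n).1) (n + 1)).trans (hS g)
    rw [nd_succ] at h1 h2
    rw [← hcongr] at h2
    rcases Bool.eq_false_or_eq_true (f n) with hf | hf
    · rcases Bool.eq_false_or_eq_true (g n) with hg | hg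
      · exact hfind (hf.trans hg.symm)
      · rw [hf, if_pos rfl] at h1
        rw [hg] at h2
        simp only [Bool.false_eq_true, if_false] at h2
        exact hBC _ (hS2.mono (sup_le h2 h1))
    · rcases Bool.eq_false_or_eq_true (g n) with hg | hg
      · rw [hg, if_pos rfl] at h2
        rw [hf] at h1
        simp only [Bool.false_eq_true, if_false] at h1
        exact hBC _ (hS2.mono (sup_le h1 h2))
      · exact hfind (hf.trans hg.symm)
  have hle := Cardinal.mk_le_of_injective hinj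
  have hc : Cardinal.mk (ℕ → Bool) = Cardinal.continuum := by simp
  rw [hc] at hle
  exact absurd hcard (not_lt.2 hle)

end Pool.Agent.Helper12.TwoLen
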