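import Mathlib

set_option autoImplicit false
set_option linter.unusedSectionVars false

open Set Metric Filter Topology

namespace Pool.Agent.Helper50.StarFinite

universe u v

variable {E : Type u} [NormedAddCommGroup E] [NormedSpace ℝ E]
variable {ι : Type v} {c : ι → E} {r : ι → ℝ}

/-- the family is not locally finite at `x` -/
def Sing (c : ι → E) (r : ι → ℝ) (x : E) : Prop :=
  ∀ ε : ℝ, 0 < ε → {j : ι | (closedBall (c j) (r j) ∩ ball x ε).Nonempty}.Infinite

lemma ptFinite (hcov : (⋃ i, closedBall (c i) (r i)) = univ)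
    (hstar : ∀ i, {j : ι | (closedBall (c i) (r i) ∩ closedBall (c j) (r j)).Nonempty}.Finite)
    (p : E) : {j : ι | p ∈ closedBall (c j) (r j)}.Finite := by
  have hp : p ∈ ⋃ i, closedBall (c i) (r i) := by rw [hcov]; trivial
  obtain ⟨i, hi⟩ := mem_iUnion.1 hp
  exact (hstar i).subset (fun j hj => ⟨p, hi, hj⟩)

lemma countable_index [TopologicalSpace.SeparableSpace E]
    (hr : ∀ i, 0 < r i)
    (hcov : (⋃ i, closedBall (c i) (r i)) = univ)
    (hstar : ∀ i, {j : ι | (closedBall (c i) (r i) ∩ closedBall (c j) (r j)).Nonempty}.Finite) :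
    Countable ι := by
  obtain ⟨s, hs, hd⟩ := TopologicalSpace.exists_countable_dense E
  have h : (⋃ q ∈ s, {j : ι | q ∈ closedBall (c j) (r j)}) = univ := by
    ext j
    simp only [mem_iUnion, mem_ofPred_eq, mem_univ, iff_true]
    obtain ⟨q, hq, hqs⟩ := hd.inter_open_nonempty (ball (c j) (r j)) isOpen_ball
      ⟨c j, mem_ball_self (hr j)⟩
    exact ⟨q, hqs, ball_subset_closedBall hq⟩
  have h2 : (⋃ q ∈ s, {j : ι | q ∈ closedBall (c j) (r j)}).Countable :=
    hs.biUnion (fun q _ => (ptFinite hcov hstar q).countable)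
  rw [h] at h2
  exact countable_univ_iff.1 h2

lemma isClosed_sing : IsClosed {x : E | Sing c r x} := by
  rw [← isOpen_compl_iff, Metric.isOpen_iff]
  intro x hx
  simp only [mem_compl_iff, mem_ofPred_eq, Sing, not_forall] at hx
  obtain ⟨ε, hε, hfin⟩ := hx
  rw [Set.not_infinite] at hfin
  refine ⟨ε / 2, by positivity, ?_⟩
  intro y hy
  simp only [mem_compl_iff, mem_ofPred_eq, Sing, not_forall]
  refine ⟨ε / 2, by positivity, ?_⟩
  rw [Set.not_infinite]
  refine hfin.subset ?_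
  rintro j ⟨z, hz1, hz2⟩
  refine ⟨z, hz1, ?_⟩
  rw [mem_ball] at *
  calc dist z x ≤ dist z y + dist y x := dist_triangle _ _ _
    _ < ε := by linarith

/-- near a non singular point only the balls containing it matter -/
lemma nhd_of_not_sing (hcov : (⋃ i, closedBall (c i) (r i)) = univ) {z : E}
    (hz : ¬ Sing c r z) :
    ∃ δ : ℝ, 0 < δ ∧ ∀ y ∈ ball z δ, ∃ j, z ∈ closedBall (c j) (r j) ∧
      y ∈ closedBall (c j) (r j) := by
  simp only [Sing, not_forall] at hz
  obtain ⟨ε, hε, hfin⟩ := hz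
  rw [Set.not_infinite] at hfin
  set S := {j : ι | (closedBall (c j) (r j) ∩ ball z ε).Nonempty ∧ z ∉ closedBall (c j) (r j)}
    with hS
  have hSf : S.Finite := hfin.subset (fun j hj => hj.1)
  have hcl : IsClosed (⋃ j ∈ S, closedBall (c j) (r j)) :=
    hSf.isClosed_biUnion (fun j _ => isClosed_closedBall)
  have hzn : z ∈ (⋃ j ∈ S, closedBall (c j) (r j))ᶜ := by
    simp only [mem_compl_iff, mem_iUnion, not_exists]
    intro j hj hzj
    exact hj.2 hzj
  obtain ⟨δ, hδ, hsub⟩ := isOpen_iff.1 hcl.isOpen_compl z hzn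
  refine ⟨min δ ε, lt_min hδ hε, ?_⟩
  intro y hy
  have hy1 : y ∈ ball z δ := ball_subset_ball (min_le_left _ _) hy
  have hy2 : y ∈ ball z ε := ball_subset_ball (min_le_right _ _) hy
  have hyc : y ∈ ⋃ i, closedBall (c i) (r i) := by rw [hcov]; trivial
  obtain ⟨j, hj⟩ := mem_iUnion.1 hyc
  refine ⟨j, ?_, hj⟩
  by_contra hzj
  have := hsub hy1
  simp only [mem_compl_iff, mem_iUnion, not_exists] at this
  exact this j ⟨⟨y, hj, hy2⟩, hzj⟩ hj

/-- The flat pieces lemma. -/
lemma flat (hcov : (⋃ i, closedBall (c i) (r i)) = univ)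
    (hstar : ∀ i, {j : ι | (closedBall (c i) (r i) ∩ closedBall (c j) (r j)).Nonempty}.Finite)
    {U : Set E} (hU : Convex ℝ U) {p : E} (hp : p ∈ U)
    (hF : ∀ z ∈ U, Sing c r z → ∀ j, p ∈ closedBall (c j) (r j) → z ∉ closedBall (c j) (r j)) :
    ∃ s : Set (E →L[ℝ] ℝ), s.Finite ∧ ∀ z ∈ U, (∀ g ∈ s, g z = g p) →
      ∃ j, p ∈ closedBall (c j) (r j) ∧ z ∈ closedBall (c j) (r j) := by
  classical
  set J := {j : ι | p ∈ closedBall (c j) (r j)} with hJ
  have hJf : J.Finite := ptFinite hcov hstar p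
  set J2 := (⋃ j ∈ J, {i : ι | (closedBall (c j) (r j) ∩ closedBall (c i) (r i)).Nonempty}) \ J
    with hJ2
  have hJ2f : J2.Finite := (hJf.biUnion (fun j _ => hstar j)).sdiff
  have hsep : ∀ i : ι, i ∈ J2 → ∃ g : E →L[ℝ] ℝ, ∀ b ∈ closedBall (c i) (r i), g b < g p := by
    intro i hi
    have hpi : p ∉ closedBall (c i) (r i) := fun h => hi.2 h
    obtain ⟨f, u, h1, h2⟩ := geometric_hahn_banach_closed_point
      (convex_closedBall (c i) (r i)) isClosed_closedBall hpi
    exact ⟨f, fun b hb => (h1 b hb).trans h2⟩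
  choose! g hg using hsep
  refine ⟨g '' J2, hJ2f.image g, ?_⟩
  set D : Set E := ⋃ j ∈ J, closedBall (c j) (r j) with hD
  have hDcl : IsClosed D := hJf.isClosed_biUnion (fun j _ => isClosed_closedBall)
  set A : Set E := {z | z ∈ U ∧ ∀ h ∈ g '' J2, h z = h p} with hA
  have hAconv : Convex ℝ A := by
    intro x hx y hy a b ha hb hab
    refine ⟨hU hx.1 hy.1 ha hb hab, ?_⟩
    intro h hh
    rw [map_add, map_smul, map_smul, hx.2 h hh, hy.2 h hh, smul_eq_mul, smul_eq_mul,
      ← add_mul, hab, one_mul]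
  have hpA : p ∈ A := ⟨hp, fun h _ => rfl⟩
  -- points of A ∩ D are interior points of D
  have hint : ∀ z ∈ A, z ∈ D → z ∈ interior D := by
    intro z hzA hzD
    obtain ⟨j0, hj0, hzj0⟩ : ∃ j ∈ J, z ∈ closedBall (c j) (r j) := by
      simpa [hD] using hzD
    have hns : ¬ Sing c r z := fun hs => hF z hzA.1 hs j0 hj0 hzj0
    obtain ⟨δ, hδ, hsub⟩ := nhd_of_not_sing hcov hns
    rw [mem_interior]
    refine ⟨ball z δ, ?_, isOpen_ball, mem_ball_self hδ⟩
    intro y hy
    obtain ⟨j, hzj, hyj⟩ := hsub y hy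
    have hjJ : j ∈ J := by
      by_contra hjJ
      have hj2 : j ∈ J2 := by
        refine ⟨?_, hjJ⟩
        simp only [mem_iUnion, mem_ofPred_eq]
        exact ⟨j0, hj0, ⟨z, hzj0, hzj⟩⟩
      have h1 := hg j hj2 z hzj
      have h2 := hzA.2 (g j) ⟨j, hj2, rfl⟩
      linarith
    simp only [hD, mem_iUnion]
    exact ⟨j, hjJ, hyj⟩
  have hpD : p ∈ D := by
    have hpc : p ∈ ⋃ i, closedBall (c i) (r i) := by rw [hcov]; trivial
    obtain ⟨j, hj⟩ := mem_iUnion.1 hpc
    simp only [hD, mem_iUnion]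
    exact ⟨j, hj, hj⟩
  have hsub : A ⊆ interior D := by
    refine hAconv.isPreconnected.subset_left_of_subset_union isOpen_interior
      hDcl.isOpen_compl ?_ ?_ ⟨p, hpA, hint p hpA hpD⟩
    · exact disjoint_compl_right.mono_left interior_subset
    · intro z hz
      by_cases hzD : z ∈ D
      · exact Or.inl (hint z hz hzD)
      · exact Or.inr hzD
  intro z hzU hz
  have : z ∈ D := interior_subset (hsub ⟨hzU, hz⟩)
  simp only [hD, mem_iUnion] at this
  obtain ⟨j, hj, hzj⟩ := this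
  exact ⟨j, hj, hzj⟩

lemma exists_ne_zero_ker (hE : ¬ FiniteDimensional ℝ E) {s : Set (E →L[ℝ] ℝ)} (hs : s.Finite) :
    ∃ y : E, y ≠ 0 ∧ ∀ g ∈ s, g y = 0 := by
  classical
  by_contra hcon
  push Not at hcon
  apply hE
  have : Fintype s := hs.fintype
  let T : E →ₗ[ℝ] (s → ℝ) := LinearMap.pi (fun g => (g.1 : E →ₗ[ℝ] ℝ))
  refine FiniteDimensional.of_injective T ?_
  rw [← LinearMap.ker_eq_bot, LinearMap.ker_eq_bot']
  intro y hy
  by_contra hy0
  obtain ⟨g, hg, hgy⟩ := hcon y hy0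
  apply hgy
  have := congrFun hy ⟨g, hg⟩
  simpa [T] using this


lemma exists_sing (hE : ¬ FiniteDimensional ℝ E)
    (hcov : (⋃ i, closedBall (c i) (r i)) = univ)
    (hstar : ∀ i, {j : ι | (closedBall (c i) (r i) ∩ closedBall (c j) (r j)).Nonempty}.Finite) :
    ∃ x : E, Sing c r x := by
  by_contra hcon
  push Not at hcon
  obtain ⟨s, hs, hflat⟩ := flat hcov hstar convex_univ (mem_univ (0 : E))
    (fun z _ hz => absurd hz (hcon z))
  obtain ⟨y, hy0, hy⟩ := exists_ne_zero_ker hE hs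
  have hJf := ptFinite hcov hstar (0 : E)
  -- the union of the balls through 0 is bounded
  have hbdd : Bornology.IsBounded (⋃ j ∈ {j : ι | (0 : E) ∈ closedBall (c j) (r j)},
      closedBall (c j) (r j)) := by
    rw [Bornology.isBounded_biUnion hJf]
    intro j _
    exact isBounded_closedBall
  obtain ⟨R, hR⟩ := hbdd.exists_norm_le
  obtain ⟨n, hn⟩ := exists_nat_gt (R / ‖y‖)
  have hny : 0 < ‖y‖ := norm_pos_iff.2 hy0
  obtain ⟨j, hj1, hj2⟩ := hflat ((n : ℝ) • y) (mem_univ _) (fun g hg => by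
    rw [map_smul, hy g hg, smul_zero, map_zero])
  have h1 := hR ((n : ℝ) • y) (by
    simp only [mem_iUnion]
    exact ⟨j, hj1, hj2⟩)
  rw [norm_smul, Real.norm_natCast] at h1
  rw [div_lt_iff₀ hny] at hn
  linarith

/-- A good centre. -/
lemma exists_good [CompleteSpace E] [TopologicalSpace.SeparableSpace E]
    (hE : ¬ FiniteDimensional ℝ E) (hr : ∀ i, 0 < r i)
    (hcov : (⋃ i, closedBall (c i) (r i)) = univ)
    (hstar : ∀ i, {j : ι | (closedBall (c i) (r i) ∩ closedBall (c j) (r j)).Nonempty}.Finite) :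
    ∃ x : E, ∃ ε : ℝ, 0 < ε ∧ Sing c r x ∧
      (∃ i, x ∈ closedBall (c i) (r i) ∧ ∀ z ∈ ball x ε, Sing c r z → z ∈ closedBall (c i) (r i)) ∧
      (∀ i, (closedBall (c i) (r i) ∩ ball x ε).Nonempty → x ∈ closedBall (c i) (r i) ∨
        ∀ j, x ∈ closedBall (c j) (r j) →
          Disjoint (closedBall (c i) (r i)) (closedBall (c j) (r j))) := by
  classical
  have hcount : Countable ι := countable_index hr hcov hstar
  obtain ⟨x0, hx0⟩ := exists_sing hE hcov hstar
  let F : Set E := {x : E | Sing c r x}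
  have hFc : IsClosed F := isClosed_sing
  have : CompleteSpace F := hFc.completeSpace_coe
  have : Nonempty F := ⟨⟨x0, hx0⟩⟩
  have hbaire : ∃ i, (interior ((fun x : F => (x : E)) ⁻¹' (closedBall (c i) (r i)))).Nonempty := by
    apply nonempty_interior_of_iUnion_of_closed
    · intro i
      exact isClosed_closedBall.preimage continuous_subtype_val
    · rw [← preimage_iUnion, hcov, preimage_univ]
  obtain ⟨i0, ⟨x, hx⟩⟩ := hbaire
  rw [mem_interior_iff_mem_nhds, Metric.mem_nhds_iff] at hx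
  obtain ⟨ε, hε, hxε⟩ := hx
  have hxi0 : (x : E) ∈ closedBall (c i0) (r i0) := hxε (mem_ball_self hε)
  have hloc : ∀ z ∈ ball (x : E) ε, Sing c r z → z ∈ closedBall (c i0) (r i0) := by
    intro z hz hs
    have : (⟨z, hs⟩ : F) ∈ ball x ε := by
      rw [mem_ball, Subtype.dist_eq]
      exact hz
    exact hxε this
  -- shrink
  have hJf := ptFinite hcov hstar (x : E)
  set J := {j : ι | (x : E) ∈ closedBall (c j) (r j)} with hJ
  set J2 := (⋃ j ∈ J, {i : ι | (closedBall (c j) (r j) ∩ closedBall (c i) (r i)).Nonempty}) \ J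
    with hJ2
  have hJ2f : J2.Finite := (hJf.biUnion (fun j _ => hstar j)).sdiff
  have hcl : IsClosed (⋃ j ∈ J2, closedBall (c j) (r j)) :=
    hJ2f.isClosed_biUnion (fun j _ => isClosed_closedBall)
  have hxn : (x : E) ∈ (⋃ j ∈ J2, closedBall (c j) (r j))ᶜ := by
    simp only [mem_compl_iff, mem_iUnion, not_exists]
    intro j hj hxj
    exact hj.2 hxj
  obtain ⟨δ, hδ, hsub⟩ := Metric.isOpen_iff.1 hcl.isOpen_compl _ hxn
  refine ⟨x, min ε δ, lt_min hε hδ, x.2, ⟨i0, hxi0, fun z hz hs => hloc z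
    (ball_subset_ball (min_le_left _ _) hz) hs⟩, ?_⟩
  rintro i ⟨z, hz1, hz2⟩
  by_cases hxi : (x : E) ∈ closedBall (c i) (r i)
  · exact Or.inl hxi
  · right
    intro j hj
    by_contra hd
    rw [Set.not_disjoint_iff] at hd
    obtain ⟨w, hw1, hw2⟩ := hd
    have hi2 : i ∈ J2 := by
      refine ⟨?_, hxi⟩
      simp only [mem_iUnion, mem_ofPred_eq]
      exact ⟨j, hj, ⟨w, hw2, hw1⟩⟩
    have := hsub (ball_subset_ball (min_le_right _ _) hz2)
    simp only [mem_compl_iff, mem_iUnion, not_exists] at this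
    exact this i hi2 hz1

/-- Near a good centre, all points outside the balls through `x` lie in a fat ball. -/
lemma fat (hE : ¬ FiniteDimensional ℝ E)
    (hcov : (⋃ i, closedBall (c i) (r i)) = univ)
    (hstar : ∀ i, {j : ι | (closedBall (c i) (r i) ∩ closedBall (c j) (r j)).Nonempty}.Finite)
    {x : E} {ε : ℝ} (hε : 0 < ε)
    (h1 : ∃ i, x ∈ closedBall (c i) (r i) ∧
      ∀ z ∈ ball x ε, Sing c r z → z ∈ closedBall (c i) (r i))
    (h2 : ∀ i, (closedBall (c i) (r i) ∩ ball x ε).Nonempty → x ∈ closedBall (c i) (r i) ∨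
        ∀ j, x ∈ closedBall (c j) (r j) →
          Disjoint (closedBall (c i) (r i)) (closedBall (c j) (r j)))
    {p : E} (hp : p ∈ ball x (ε / 2))
    (hpC : ∀ j, x ∈ closedBall (c j) (r j) → p ∉ closedBall (c j) (r j)) :
    ∃ j, p ∈ closedBall (c j) (r j) ∧ ε / 8 ≤ r j ∧
      ∀ l, x ∈ closedBall (c l) (r l) →
        Disjoint (closedBall (c j) (r j)) (closedBall (c l) (r l)) := by
  obtain ⟨i0, hi0, hloc⟩ := h1
  have hpε : p ∈ ball x ε := ball_subset_ball (by linarith) hp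
  have hdisj : ∀ j, p ∈ closedBall (c j) (r j) → ∀ l, x ∈ closedBall (c l) (r l) →
      Disjoint (closedBall (c j) (r j)) (closedBall (c l) (r l)) := by
    intro j hj
    rcases h2 j ⟨p, hj, hpε⟩ with h | h
    · exact absurd hj (hpC j h)
    · exact h
  obtain ⟨s, hs, hflat⟩ := flat hcov hstar (convex_ball x ε) hpε (by
    intro z hz hsing j hj hzj
    exact (Set.disjoint_left.1 (hdisj j hj i0 hi0)) hzj (hloc z hz hsing))
  obtain ⟨y, hy0, hy⟩ := exists_ne_zero_ker hE hs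
  have hny : 0 < ‖y‖ := norm_pos_iff.2 hy0
  set z := p + (ε / 4 / ‖y‖) • y with hz
  have hnz : ‖(ε / 4 / ‖y‖) • y‖ = ε / 4 := by
    rw [norm_smul, Real.norm_eq_abs, abs_of_pos (by positivity)]
    field_simp
  have hzU : z ∈ ball x ε := by
    rw [mem_ball, dist_eq_norm] at hp ⊢
    calc ‖z - x‖ = ‖(p - x) + (ε / 4 / ‖y‖) • y‖ := by rw [hz]; congr 1; abel
      _ ≤ ‖p - x‖ + ‖(ε / 4 / ‖y‖) • y‖ := norm_add_le _ _
      _ < ε := by rw [hnz]; linarith
  obtain ⟨j, hj1, hj2⟩ := hflat z hzU (by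
    intro g hg
    rw [hz, map_add, map_smul, hy g hg, smul_zero, add_zero])
  refine ⟨j, hj1, ?_, hdisj j hj1⟩
  rw [mem_closedBall, dist_eq_norm] at hj1 hj2
  have : ε / 4 ≤ r j + r j := by
    calc ε / 4 = ‖(z - c j) - (p - c j)‖ := by rw [← hnz, hz]; congr 1; abel
      _ ≤ ‖z - c j‖ + ‖p - c j‖ := norm_sub_le _ _
      _ ≤ r j + r j := add_le_add hj2 hj1
  linarith

end Pool.Agent.Helper50.StarFinite
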